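import Mathlib
import Pool.Agent.Q38.EE.Fin

/-!
# Polynomial but not effective equivariant H*-series, for every nontrivial finite group

For every finite group `G ≠ 1`, of order `n`, there is a lattice polytope `P` of dimension `n (n + 2)` with
a faithful action of `G` whose equivariant `H*`-series is a polynomial and is not effective.

`P` is the join of the prism `Δ_G × [0, 1]` over the unimodular simplex with vertex set `G` (on which `G`
acts by translations) with a lattice simplex of dimension `n (n + 1) - 1` with `h*`-polynomial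
`∑_{i < n} t ^ ((n + 1) i)` and trivial action. For `g ≠ 1` of order `r` the coefficient of `t ^ r` of the
`H*`-series has the value `0` at the unit element and `n` at `g`.
-/

set_option autoImplicit false

open scoped Pointwise

namespace Pool.Agent.Results.MP_3885fd_co.EveryNontrivialGroup

section defs

variable {ι : Type} [Fintype ι] [DecidableEq ι]

/-- the point of `ℝ ^ ι` given by a lattice point -/
def real (x : ι → ℤ) : ι → ℝ := fun i => (x i : ℝ)

/-- the lattice polytope which is the convex hull of the finite set `S` of lattice points -/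
def polytope (S : Finset (ι → ℤ)) : Set (ι → ℝ) := convexHull ℝ (real '' (S : Set (ι → ℤ)))

/-- the matrix of the linear part of an affine automorphism of the lattice `ℤ ^ ι` -/
def lin (f : (ι → ℤ) ≃ᵃ[ℤ] (ι → ℤ)) : Matrix ι ι ℤ :=
  LinearMap.toMatrix' (f.linear : (ι → ℤ) →ₗ[ℤ] (ι → ℤ))

/-- the extension of an affine automorphism of the lattice to `ℝ ^ ι` -/
def extend (f : (ι → ℤ) ≃ᵃ[ℤ] (ι → ℤ)) (x : ι → ℝ) : ι → ℝ :=
  Matrix.mulVec ((lin f).map (Int.cast : ℤ → ℝ)) x + real (f 0)

variable {G : Type} [Group G]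

/-- `G` acts on the affine lattice `ℤ ^ ι` by affine automorphisms, the polytope of `S` has full
dimension and `G` maps it to itself -/
structure IsInvariantPolytope (φ : G →* ((ι → ℤ) ≃ᵃ[ℤ] (ι → ℤ))) (S : Finset (ι → ℤ)) : Prop where
  full : affineSpan ℝ (real '' (S : Set (ι → ℤ))) = ⊤
  invariant : ∀ g, extend (φ g) '' polytope S = polytope S

/-- the permutation character of `G` on the lattice points of `m P`: the number of those fixed by
`g`; `g` acts on `m P` by `x ↦ (linear part of g) x + m (g 0)` -/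
noncomputable def chi (φ : G →* ((ι → ℤ) ≃ᵃ[ℤ] (ι → ℤ))) (S : Finset (ι → ℤ)) (m : ℕ) (g : G) : ℕ :=
  Set.ncard {x : ι → ℤ | real x ∈ (m : ℝ) • polytope S ∧ (φ g).linear x + m • φ g 0 = x}

/-- the value at `g` of the equivariant `H*`-series,
`H*(t) = (∑ χ_{mP} t ^ m) (1 - t) det (I - t ρ)`; `Matrix.charpolyRev M` is `det (1 - t M)` -/
noncomputable def HStar (φ : G →* ((ι → ℤ) ≃ᵃ[ℤ] (ι → ℤ))) (S : Finset (ι → ℤ)) (g : G) :
    PowerSeries ℤ :=
  PowerSeries.mk (fun m => (chi φ S m g : ℤ)) *
    ((1 - PowerSeries.X) * (Matrix.charpolyRev (lin (φ g)) : PowerSeries ℤ))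

/-- only finitely many coefficients `H*_i` are nonzero -/
def IsPolynomial (φ : G →* ((ι → ℤ) ≃ᵃ[ℤ] (ι → ℤ))) (S : Finset (ι → ℤ)) : Prop :=
  ∃ D : ℕ, ∀ i, D < i → ∀ g, PowerSeries.coeff i (HStar φ S g) = 0

/-- every coefficient `H*_i` is the character of a finite-dimensional complex representation -/
def IsEffective (φ : G →* ((ι → ℤ) ≃ᵃ[ℤ] (ι → ℤ))) (S : Finset (ι → ℤ)) : Prop :=
  ∀ i : ℕ, ∃ V : FDRep ℂ G, ∀ g, V.character g = ((PowerSeries.coeff i (HStar φ S g) : ℤ) : ℂ)

end defs

open Pool.Agent.Q38.EE Pool.Agent.H160R3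

section construction

variable (G : Type) [Group G] (j : ℕ)

/-- the permutation of the coordinates -/
def sig (g : G) : Idx G j ≃ Idx G j := Equiv.sumCongr (Equiv.mulRight g) (Equiv.refl _)

theorem sig_coe (g : G) : (sig G j g : Idx G j → Idx G j) = Sum.map (fun x : G => x * g) id := by
  funext i
  rcases i with i | i <;> rfl

/-- the action -/
def act : G →* ((Idx G j → ℤ) ≃ᵃ[ℤ] (Idx G j → ℤ)) where
  toFun g := (LinearEquiv.funCongrLeft ℤ ℤ (sig G j g)).toAffineEquiv
  map_one' := by
    apply AffineEquiv.ext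
    intro x
    funext i
    rcases i with i | i
    · show x (Sum.inl (i * 1)) = x (Sum.inl i)
      rw [mul_one]
    · rfl
  map_mul' g h := by
    apply AffineEquiv.ext
    intro x
    funext i
    rcases i with i | i
    · show x (Sum.inl (i * (g * h))) = x (Sum.inl (i * g * h))
      rw [mul_assoc]
    · rfl

theorem act_apply (g : G) (x : Idx G j → ℤ) : act G j g x = x ∘ sig G j g := rfl

theorem act_linear (g : G) (x : Idx G j → ℤ) : (act G j g).linear x = x ∘ sig G j g := rfl

theorem act_zero (g : G) : act G j g 0 = 0 := rfl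

variable [Fintype G] [DecidableEq G]

theorem lin_act (g : G) : lin (act G j g) = pm (sig G j g) := by
  ext1 i i'
  rw [lin, LinearMap.toMatrix'_apply]
  show (Pi.single i' (1 : ℤ) : Idx G j → ℤ) (sig G j g i) = _
  rw [Pi.single_apply]
  rfl

theorem extend_act (g : G) (x : Idx G j → ℝ) : extend (act G j g) x = x ∘ sig G j g := by
  funext i
  rw [extend, act_zero, lin_act]
  simp only [Pi.add_apply, Matrix.mulVec, dotProduct, Matrix.map_apply, pm, Matrix.of_apply, real,
    Pi.zero_apply, Int.cast_zero, add_zero, Function.comp]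
  simp

/-- the generating points -/
def pts (n : ℕ) : Finset (Idx G j → ℤ) := Finset.univ.image (vert n j)

theorem real_pts (n : ℕ) : real '' ((pts G j n : Finset (Idx G j → ℤ)) : Set (Idx G j → ℤ)) =
    Set.range fun w : Vtx G j => fun i => ((vert n j w i : ℤ) : ℝ) := by
  rw [pts, Finset.coe_image, Finset.coe_univ, Set.image_univ, ← Set.range_comp]
  rfl

theorem polytope_pts (n : ℕ) : polytope (pts G j n) = PP (G := G) n j := by
  rw [polytope, real_pts]; rfl

/-- the permutation of the vertices -/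
def sigV (g : G) : Vtx G j ≃ Vtx G j :=
  Equiv.sumCongr (Equiv.prodCongr (Equiv.mulRight g⁻¹) (Equiv.refl _)) (Equiv.refl _)

theorem vert_sig (n : ℕ) (g : G) (w : Vtx G j) : vert n j w ∘ sig G j g = vert n j (sigV G j g w) := by
  funext i
  rcases w with ⟨x, b⟩ | i' | _ | _
  · rcases i with i | i
    · simp only [Function.comp, sig, sigV, vert, pack, Equiv.sumCongr_apply, Sum.map_inl,
        Equiv.coe_mulRight, Sum.elim_inl, Equiv.prodCongr_apply, Prod.map, Equiv.coe_refl, id]
      congr 1
      rw [eq_iff_iff]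
      exact eq_mul_inv_iff_mul_eq.symm
    · rfl
  · rcases i with i | i <;> rfl
  · rcases i with i | i <;> rfl
  · rcases i with i | i <;> rfl

theorem invariant_pts (n : ℕ) (g : G) :
    extend (act G j g) '' polytope (pts G j n) = polytope (pts G j n) := by
  have e : extend (act G j g) = (LinearMap.funLeft ℝ ℝ (sig G j g) : (Idx G j → ℝ) →ₗ[ℝ] (Idx G j → ℝ)) := by
    funext x
    rw [extend_act]; rfl
  rw [e, polytope, LinearMap.image_convexHull, real_pts, ← Set.range_comp]
  congr 1
  have h : (fun w : Vtx G j => fun i => ((vert n j w i : ℤ) : ℝ)) ∘ sigV G j g =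
      (LinearMap.funLeft ℝ ℝ (sig G j g)) ∘ (fun w : Vtx G j => fun i => ((vert n j w i : ℤ) : ℝ)) := by
    funext w i
    have := congrFun (vert_sig G j n g w) i
    simp only [Function.comp] at this
    simp only [Function.comp, LinearMap.funLeft_apply]
    rw [this]
  rw [← h, (sigV G j g).surjective.range_comp]

theorem full_pts (n : ℕ) (hn : 0 < n) :
    affineSpan ℝ (real '' ((pts G j n : Finset (Idx G j → ℤ)) : Set (Idx G j → ℤ))) = ⊤ := by
  rw [real_pts, AffineSubspace.affineSpan_eq_top_iff_vectorSpan_eq_top_of_nonempty _ _ _ (Set.range_nonempty _)]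
  set s : Set (Idx G j → ℝ) := Set.range fun w : Vtx G j => fun i => ((vert n j w i : ℤ) : ℝ) with hs
  have hsub : ∀ w w' : Vtx G j, (fun i => ((vert n j w i : ℤ) : ℝ)) - (fun i => ((vert n j w' i : ℤ) : ℝ)) ∈
      vectorSpan ℝ s := fun w w' => vsub_mem_vectorSpan ℝ ⟨w, rfl⟩ ⟨w', rfl⟩
  have h0 : (fun i => ((vert n j (Sum.inr (Sum.inr false) : Vtx G j) i : ℤ) : ℝ)) = 0 := by
    funext i
    rcases i with i | ⟨⟩ | i | ⟨⟩ <;> simp [vert, pack]
  have hmem : ∀ w : Vtx G j, (fun i => ((vert n j w i : ℤ) : ℝ)) ∈ vectorSpan ℝ s := by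
    intro w
    have := hsub w (Sum.inr (Sum.inr false))
    rwa [h0, sub_zero] at this
  have hG : ∀ x : G, (Pi.single (Sum.inl x) 1 : Idx G j → ℝ) ∈ vectorSpan ℝ s := by
    intro x
    convert hmem (Sum.inl (x, false)) using 1
    funext i
    rcases i with i | ⟨⟩ | i | ⟨⟩ <;> simp [vert, pack, Pi.single_apply]
  have hy : (Pi.single (Sum.inr (Sum.inl ())) 1 : Idx G j → ℝ) ∈ vectorSpan ℝ s := by
    convert hsub (Sum.inl (1, true)) (Sum.inl (1, false)) using 1
    funext i
    rcases i with i | ⟨⟩ | i | ⟨⟩ <;> simp [vert, pack, Pi.single_apply]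
  have hx : ∀ i' : Fin j, (Pi.single (Sum.inr (Sum.inr (Sum.inl i'))) 1 : Idx G j → ℝ) ∈
      vectorSpan ℝ s := by
    intro i'
    convert hmem (Sum.inr (Sum.inl i')) using 1
    funext i
    rcases i with i | ⟨⟩ | i | ⟨⟩ <;> simp [vert, pack, Pi.single_apply]
  have hz : (Pi.single (Sum.inr (Sum.inr (Sum.inr ()))) 1 : Idx G j → ℝ) ∈ vectorSpan ℝ s := by
    have hnR : (n : ℝ) ≠ 0 := by exact_mod_cast hn.ne'
    have h1 : (1 / (n : ℝ)) • ((fun i => ((vert n j (Sum.inr (Sum.inr true) : Vtx G j) i : ℤ) : ℝ)) +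
        ∑ i' : Fin j, (Pi.single (Sum.inr (Sum.inr (Sum.inl i'))) 1 : Idx G j → ℝ)) ∈ vectorSpan ℝ s :=
      Submodule.smul_mem _ _ (Submodule.add_mem _ (hmem _) (Submodule.sum_mem _ fun i' _ => hx i'))
    convert h1 using 1
    funext i
    rcases i with i | ⟨⟩ | i | ⟨⟩ <;>
      simp [vert, pack, Pi.single_apply, Finset.sum_apply, hnR]
  rw [eq_top_iff, ← (Pi.basisFun ℝ (Idx G j)).span_eq, Submodule.span_le]
  rintro _ ⟨i, rfl⟩
  rw [Pi.basisFun_apply]
  rcases i with x | ⟨⟩ | i | ⟨⟩
  · exact hG x
  · exact hy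
  · exact hx i
  · exact hz

theorem chi_eq (hj : j + 2 = Fintype.card G * (Fintype.card G + 1)) (m : ℕ) (g : G) :
    (chi (act G j) (pts G j (Fintype.card G)) m g : ℤ) =
      PowerSeries.coeff m (ser (hTT (Fintype.card G) (Fintype.card G + 1) j g)) := by
  rw [coeff_ser, chi, ← Nat.card_coe_set_eq]
  congr 1
  apply Nat.card_congr
  have key : ∀ x : Idx G j → ℤ, (real x ∈ (m : ℝ) • polytope (pts G j (Fintype.card G)) ∧
      (act G j g).linear x + m • act G j g 0 = x) ↔
      (Ineq (Fintype.card G) (Fintype.card G + 1) j x m ∧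
        ∀ x', x (Sum.inl (x' * g)) = x (Sum.inl x')) := by
    intro x
    rw [polytope_pts]
    refine and_congr (mem_iff _ _ _ Fintype.card_pos hj x m) ?_
    rw [act_zero, smul_zero, add_zero, act_linear]
    constructor
    · intro h x'
      exact congrFun h (Sum.inl x')
    · intro h
      funext i
      rcases i with i | i
      · exact h i
      · rfl
  exact
    { toFun := fun x => ⟨⟨(x.1, m), (key x.1).1 x.2⟩, rfl⟩
      invFun := fun t => ⟨t.1.1.1, (key _).2 (by
        have h1 := t.1.2
        have h2 : t.1.1.2 = m := t.2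
        rw [h2] at h1
        exact h1)⟩
      left_inv := fun x => rfl
      right_inv := by
        rintro ⟨⟨⟨x, m'⟩, h⟩, rfl⟩
        rfl }

theorem HStar_eq (hj : j + 2 = Fintype.card G * (Fintype.card G + 1)) (g : G) :
    HStar (act G j) (pts G j (Fintype.card G)) g = HS j g := by
  have e1 : PowerSeries.mk (fun m => (chi (act G j) (pts G j (Fintype.card G)) m g : ℤ)) =
      ser (hTT (Fintype.card G) (Fintype.card G + 1) j g) := by
    ext m
    rw [PowerSeries.coeff_mk, chi_eq G j hj]
  rw [HStar, HS, e1, lin_act, sig_coe]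
  rfl

end construction

/-- **For every nontrivial finite group `G` there is a `G`-invariant lattice polytope whose
equivariant `H*`-series is polynomial and not effective**; `G` acts faithfully and the dimension of the
polytope is `n (n + 2)` for `n = |G|`. -/
theorem result (G : Type) [Group G] [Finite G] [Nontrivial G] :
    ∃ (ι : Type) (_ : Fintype ι) (_ : DecidableEq ι) (φ : G →* ((ι → ℤ) ≃ᵃ[ℤ] (ι → ℤ)))
      (S : Finset (ι → ℤ)),
      Fintype.card ι = Nat.card G * (Nat.card G + 2) ∧ Function.Injective φ ∧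
      IsInvariantPolytope φ S ∧ IsPolynomial φ S ∧ ¬ IsEffective φ S := by
  classical
  haveI : Fintype G := Fintype.ofFinite G
  have hn : 1 < Fintype.card G := Fintype.one_lt_card
  rw [Nat.card_eq_fintype_card]
  set n := Fintype.card G with hndef
  have hnn : 2 ≤ n * (n + 1) := by nlinarith
  obtain ⟨j, hj⟩ : ∃ j, j + 2 = n * (n + 1) := ⟨n * (n + 1) - 2, by omega⟩
  refine ⟨Idx G j, inferInstance, inferInstance, act G j, pts G j n, ?_, ?_, ⟨?_, ?_⟩, ?_, ?_⟩
  · simp only [Fintype.card_sum, Fintype.card_fin, Fintype.card_unit]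
    rw [← hndef]
    nlinarith
  · intro g h hgh
    have h1 : act G j g (fun i => Sum.elim (fun x : G => if x = g then (1 : ℤ) else 0) (fun _ => 0) i) =
        act G j h (fun i => Sum.elim (fun x : G => if x = g then (1 : ℤ) else 0) (fun _ => 0) i) := by
      rw [hgh]
    have h2 := congrFun h1 (Sum.inl 1)
    simp only [act_apply, Function.comp, sig, Equiv.sumCongr_apply, Sum.map_inl,
      Equiv.coe_mulRight, Sum.elim_inl, one_mul, if_true] at h2
    by_contra hne
    rw [if_neg (fun h' => hne h'.symm)] at h2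
    exact one_ne_zero h2
  · exact full_pts G j n (by omega)
  · exact fun g => invariant_pts G j n g
  · choose p hp using fun g : G => HS_poly j g hj
    refine ⟨Finset.univ.sup fun g => (p g).natDegree, fun i hi g => ?_⟩
    rw [HStar_eq G j hj, hp, Polynomial.coeff_coe]
    apply Polynomial.coeff_eq_zero_of_natDegree_lt
    exact lt_of_le_of_lt (Finset.le_sup (f := fun g => (p g).natDegree) (Finset.mem_univ g)) hi
  · intro heff
    obtain ⟨g, hg⟩ := exists_ne (1 : G)
    obtain ⟨r, hr⟩ : ∃ r, orderOf g = r + 1 := ⟨orderOf g - 1, by have := orderOf_pos g; omega⟩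
    have hr1 : 1 ≤ r := by
      by_contra hcon
      have : orderOf g = 1 := by omega
      exact hg (orderOf_eq_one_iff.mp this)
    have hrn : r + 1 ≤ n := hr ▸ orderOf_le_card_univ
    obtain ⟨V, hV⟩ := heff (r + 1)
    have h1 := hV 1
    have h2 := hV g
    rw [HStar_eq G j hj, HS_one_coeff j hj (by omega) hrn, FDRep.char_one] at h1
    rw [HStar_eq G j hj, HS_coeff j g hj hr hr1] at h2
    have h3 : Module.finrank ℂ V = 0 := by exact_mod_cast h1
    have h4 : Subsingleton V := Module.finrank_zero_iff.1 h3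
    have h5 : V.character g = 0 := by
      unfold FDRep.character
      have : V.ρ g = 0 := by
        apply LinearMap.ext
        intro x
        exact Subsingleton.elim _ _
      rw [this, map_zero]
    rw [h5] at h2
    have h6 : ((Fintype.card G : ℕ) : ℂ) = 0 := by
      have := h2.symm
      simpa using this
    have h7 : Fintype.card G = 0 := by exact_mod_cast h6
    omega

end Pool.Agent.Results.MP_3885fd_co.EveryNontrivialGroup
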